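import Pool.Agent.V5helper57.WZ.Stm

/-!
# Project WZ, job ALZ
-/

set_option autoImplicit false

open Matrix

namespace Pool.Agent.V5helper98.WZ

theorem nil2 {K : Type} [Field K] {N : Matrix (Fin 2) (Fin 2) K} (h : N * N = 0) :
    N 1 1 = -N 0 0 ∧ N 0 0 * N 0 0 + N 0 1 * N 1 0 = 0 := by
  have h00 := congrFun (congrFun h 0) 0
  have h01 := congrFun (congrFun h 0) 1
  have h10 := congrFun (congrFun h 1) 0
  have h11 := congrFun (congrFun h 1) 1
  simp only [Matrix.mul_apply, Fin.sum_univ_two, Matrix.zero_apply] at h00 h01 h10 h11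
  refine ⟨?_, h00⟩
  by_contra hne
  have hs : N 0 0 + N 1 1 ≠ 0 := fun hh => hne (by linear_combination hh)
  have e01 : N 0 1 = 0 := (mul_eq_zero.1 (by linear_combination h01 : N 0 1 * (N 0 0 + N 1 1) = 0)).resolve_right hs
  rw [e01] at h00 h11
  have e0 : N 0 0 = 0 := by simpa using h00
  have e1 : N 1 1 = 0 := by simpa using h11
  exact hs (by rw [e0, e1, add_zero])

theorem id1 {K : Type} [Field K] (a b c a' b' c' p q r : K) (h : a * a + b * c = 0) (h' : a' * a' + b' * c' = 0)
    (h2 : (2 : K) ≠ 0) (hD : (p * (b * c' - c * b') + (a * b' - b * a') * r + (c * a' - a * c') * q) = 0) :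
    (2 * a * a' + b * c' + c * b') * ((2 * a * a' + b * c' + c * b') * p - (2 * p * a' + q * c' + r * b') * a
      - (2 * p * a + q * c + r * b) * a') = 0 := by
  grind

theorem id2 {K : Type} [Field K] (a b c a' b' c' p q r : K) (h : a * a + b * c = 0) (h' : a' * a' + b' * c' = 0)
    (h2 : (2 : K) ≠ 0) (hD : (p * (b * c' - c * b') + (a * b' - b * a') * r + (c * a' - a * c') * q) = 0) :
    (2 * a * a' + b * c' + c * b') * ((2 * a * a' + b * c' + c * b') * q - (2 * p * a' + q * c' + r * b') * b
      - (2 * p * a + q * c + r * b) * b') = 0 := by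
  grind

theorem id3 {K : Type} [Field K] (a b c a' b' c' p q r : K) (h : a * a + b * c = 0) (h' : a' * a' + b' * c' = 0)
    (h2 : (2 : K) ≠ 0) (hD : (p * (b * c' - c * b') + (a * b' - b * a') * r + (c * a' - a * c') * q) = 0) :
    (2 * a * a' + b * c' + c * b') * ((2 * a * a' + b * c' + c * b') * r - (2 * p * a' + q * c' + r * b') * c
      - (2 * p * a + q * c + r * b) * c') = 0 := by
  grind

/-- a trace zero matrix orthogonal to the commutator is a combination of `N`, `N'` -/
theorem decomp {K : Type} [Field K] (h2 : (2 : K) ≠ 0) (N N' X : Matrix (Fin 2) (Fin 2) K) (hN : N * N = 0)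
    (hN' : N' * N' = 0) (hX : X * X = 0) (ht : (N * N').trace ≠ 0) (hD : (N * N' * X).trace = (N' * N * X).trace) :
    X = ((X * N').trace / (N * N').trace) • N + ((X * N).trace / (N * N').trace) • N' := by
  obtain ⟨n1, n2⟩ := nil2 hN
  obtain ⟨n1', n2'⟩ := nil2 hN'
  obtain ⟨x1, x2⟩ := nil2 hX
  have hD' : (X 0 0 * (N 0 1 * N' 1 0 - N 1 0 * N' 0 1) + (N 0 0 * N' 0 1 - N 0 1 * N' 0 0) * X 1 0 +
      (N 1 0 * N' 0 0 - N 0 0 * N' 1 0) * X 0 1) = 0 := by
    have e : 2 * (X 0 0 * (N 0 1 * N' 1 0 - N 1 0 * N' 0 1) + (N 0 0 * N' 0 1 - N 0 1 * N' 0 0) * X 1 0 +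
      (N 1 0 * N' 0 0 - N 0 0 * N' 1 0) * X 0 1) = 0 := by
      simp only [Matrix.trace_fin_two, Matrix.mul_apply, Fin.sum_univ_two, n1, n1', x1] at hD
      linear_combination hD
    exact (mul_eq_zero.1 e).resolve_left h2
  have i1 := id1 _ _ _ _ _ _ _ _ _ n2 n2' h2 hD'
  have i2 := id2 _ _ _ _ _ _ _ _ _ n2 n2' h2 hD'
  have i3 := id3 _ _ _ _ _ _ _ _ _ n2 n2' h2 hD'
  have et : (N * N').trace = 2 * N 0 0 * N' 0 0 + N 0 1 * N' 1 0 + N 1 0 * N' 0 1 := by
    simp only [Matrix.trace_fin_two, Matrix.mul_apply, Fin.sum_univ_two, n1, n1']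
    ring
  have e1 : (X * N').trace = 2 * X 0 0 * N' 0 0 + X 0 1 * N' 1 0 + X 1 0 * N' 0 1 := by
    simp only [Matrix.trace_fin_two, Matrix.mul_apply, Fin.sum_univ_two, x1, n1']
    ring
  have e2 : (X * N).trace = 2 * X 0 0 * N 0 0 + X 0 1 * N 1 0 + X 1 0 * N 0 1 := by
    simp only [Matrix.trace_fin_two, Matrix.mul_apply, Fin.sum_univ_two, x1, n1]
    ring
  rw [← et, ← e1, ← e2] at i1 i2 i3
  have j1 := (mul_eq_zero.1 i1).resolve_left ht
  have j2 := (mul_eq_zero.1 i2).resolve_left ht
  have j3 := (mul_eq_zero.1 i3).resolve_left ht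
  ext i j
  fin_cases i <;> fin_cases j
  · simp only [Fin.zero_eta, Fin.mk_one, Fin.isValue, Matrix.add_apply, Matrix.smul_apply, smul_eq_mul]
    field_simp
    linear_combination j1
  · simp only [Fin.zero_eta, Fin.mk_one, Fin.isValue, Matrix.add_apply, Matrix.smul_apply, smul_eq_mul]
    field_simp
    linear_combination j2
  · simp only [Fin.zero_eta, Fin.mk_one, Fin.isValue, Matrix.add_apply, Matrix.smul_apply, smul_eq_mul]
    field_simp
    linear_combination j3
  · simp only [Fin.zero_eta, Fin.mk_one, Fin.isValue, Matrix.add_apply, Matrix.smul_apply, smul_eq_mul, n1, n1', x1]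
    field_simp
    linear_combination -j1

/-- commuting nilpotent matrices have `trace (N * N') = 0` -/
theorem tr_of_comm {K : Type} [Field K] (N N' : Matrix (Fin 2) (Fin 2) K) (hN : N * N = 0)
    (h : N * N' = N' * N) : (N * N').trace = 0 := by
  have hsq : (N * N') * (N * N') = 0 := by
    calc (N * N') * (N * N') = N * (N' * N) * N' := by simp only [mul_assoc]
      _ = N * (N * N') * N' := by rw [h]
      _ = (N * N) * N' * N' := by simp only [mul_assoc]
      _ = 0 := by rw [hN]; simp
  obtain ⟨n1, -⟩ := nil2 hsq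
  rw [Matrix.trace_fin_two, n1]
  ring

theorem t_ALZ : Pool.Agent.V5helper57.WZ.S_ALZ := by
  intro hTRR K _ h2 A hA hNP T hT hrel i j
  obtain ⟨a, b, c, d, ha, hb, hc, hd, r1, r2, r3, r4, r5, r6, r7, r8, r9, r10, r11, r12⟩ :=
    hTRR K (fun _ => 0) A T hT (by intro i; rw [hrel i]; simp)
  simp only [zero_mul] at r1 r2 r3 r4 r5 r6 r7 r8 r9 r10 r11 r12
  have hA' : A 0 2 * A 1 3 - A 0 3 * A 1 2 ≠ 0 := sub_ne_zero.2 hA
  have d0 : d = 0 := (mul_eq_zero.1 (by linear_combination A 1 3 * r1 + A 0 3 * r2 :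
    (A 0 2 * A 1 3 - A 0 3 * A 1 2) * d = 0)).resolve_left hA'
  have c0 : c = 0 := (mul_eq_zero.1 (by linear_combination -(A 1 2) * r1 - A 0 2 * r2 :
    (A 0 2 * A 1 3 - A 0 3 * A 1 2) * c = 0)).resolve_left hA'
  subst d0 c0
  have b0 : b = 0 := (mul_eq_zero.1 (by linear_combination -(A 1 2) * r3 - A 1 3 * r5 :
    (A 0 2 * A 1 3 - A 0 3 * A 1 2) * b = 0)).resolve_left hA'
  have a0 : a = 0 := (mul_eq_zero.1 (by linear_combination A 0 2 * r7 + A 0 3 * r9 :
    (A 0 2 * A 1 3 - A 0 3 * A 1 2) * a = 0)).resolve_left hA'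
  subst b0 a0
  clear r1 r2 r3 r4 r5 r6 r7 r8 r9 r10 r11 r12 hTRR
  have key : ∀ i j k : Fin 4, (T i * T j * T k).trace = (T j * T i * T k).trace := by
    intro i j k
    rw [← sub_eq_zero]
    simp only [Matrix.trace_fin_two, Matrix.mul_apply, Fin.sum_univ_two] at ha hb hc hd ⊢
    fin_cases i <;> fin_cases j <;> fin_cases k <;>
      simp only [Fin.zero_eta, Fin.mk_one, Fin.reduceFinMk, Fin.isValue] <;>
      first
        | ring1
        | linear_combination -ha
        | linear_combination ha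
        | linear_combination -hb
        | linear_combination hb
        | linear_combination -hc
        | linear_combination hc
        | linear_combination -hd
        | linear_combination hd
  by_contra ht
  set N := T i with hNdef
  set N' := T j with hNdef'
  set t := (N * N').trace with htdef
  have hN : N * N = 0 := hT i
  have hN' : N' * N' = 0 := hT j
  set x : Fin 4 → K := fun k => (T k * N').trace / t with hx
  set y : Fin 4 → K := fun k => (T k * N).trace / t with hy
  have dec : ∀ k, T k = x k • N + y k • N' := fun k => decomp h2 N N' (T k) hN hN' (hT k) ht (key i j k)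
  have hxy : ∀ k, x k * y k = 0 := by
    intro k
    have e : (T k * T k).trace = 2 * t * (x k * y k) := by
      rw [dec k]
      simp only [add_mul, mul_add, Matrix.smul_mul, Matrix.mul_smul, hN, hN', Matrix.trace_add, Matrix.trace_smul,
        smul_zero, Matrix.trace_zero, Matrix.trace_mul_comm N' N, smul_eq_mul, ← htdef]
      ring
    rw [hT k, Matrix.trace_zero] at e
    exact (mul_eq_zero.1 e.symm).resolve_left (mul_ne_zero h2 ht)
  have hcomm : N * N' - N' * N ≠ 0 := fun h => ht (tr_of_comm N N' hN (sub_eq_zero.1 h))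
  have hco : ∀ k, (∑ j, A k j * x j) * y k - (∑ j, A k j * y j) * x k = 0 := by
    intro k
    have hsum : (∑ j, A k j • T j) = (∑ j, A k j * x j) • N + (∑ j, A k j * y j) • N' := by
      rw [Finset.sum_smul, Finset.sum_smul, ← Finset.sum_add_distrib]
      refine Finset.sum_congr rfl fun l _ => ?_
      rw [dec l, smul_add, smul_smul, smul_smul]
    have e := hrel k
    rw [hsum] at e
    generalize (∑ j, A k j * x j) = α at *
    generalize (∑ j, A k j * y j) = β at *
    have e' : (α * y k - β * x k) • (N * N' - N' * N) = 0 := by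
      rw [← e]
      conv_rhs => rw [dec k]
      simp only [add_mul, mul_add, Matrix.smul_mul, Matrix.mul_smul, hN, hN', smul_zero, smul_sub, sub_smul, smul_smul]
      module
    exact (smul_eq_zero.1 e').resolve_right hcomm
  have q1 : ∀ k, x k * ∑ j, A k j * y j = 0 := by
    intro k
    by_cases hxk : x k = 0
    · rw [hxk, zero_mul]
    · have : y k = 0 := (mul_eq_zero.1 (hxy k)).resolve_left hxk
      have h1 := hco k
      rw [this] at h1
      linear_combination -h1
  have q2 : ∀ k, y k * ∑ j, A k j * x j = 0 := by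
    intro k
    by_cases hyk : y k = 0
    · rw [hyk, zero_mul]
    · have : x k = 0 := (mul_eq_zero.1 (hxy k)).resolve_right hyk
      have h1 := hco k
      rw [this] at h1
      linear_combination h1
  rcases hNP x y hxy q1 q2 with h | h
  · have h1 := h i
    rw [hx] at h1
    simp only at h1
    rw [← hNdef, ← htdef, div_self ht] at h1
    exact one_ne_zero h1
  · have h1 := h j
    rw [hy] at h1
    simp only at h1
    rw [← hNdef', Matrix.trace_mul_comm, ← htdef, div_self ht] at h1
    exact one_ne_zero h1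

end Pool.Agent.V5helper98.WZ
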