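import Pool.Agent.V5helper57.WZ.Stm

/-!
# Project WZ, job NPQ
-/

set_option autoImplicit false

open Matrix

namespace Pool.Agent.V5helper98.WZ

/-- the case of one index in the support of `x` -/
theorem single {K : Type} [Field K] {x y1 y2 y3 a1 a2 a3 b1 b2 : K} (hb1 : b1 ≠ 0) (hb2 : b2 ≠ 0) (ha3 : a3 ≠ 0)
    (h : x * (a1 * y1 + a2 * y2 + a3 * y3) = 0) (h1 : y1 * (b1 * x) = 0) (h2 : y2 * (b2 * x) = 0) :
    x = 0 ∨ (y1 = 0 ∧ y2 = 0 ∧ y3 = 0) := by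
  by_cases hx : x = 0
  · exact Or.inl hx
  · right
    have e1 : y1 = 0 := by simpa [hb1, hx] using h1
    have e2 : y2 = 0 := by simpa [hb2, hx] using h2
    refine ⟨e1, e2, ?_⟩
    simpa [e1, e2, hx, ha3] using h

/-- the case of two indices in both supports -/
theorem double {K : Type} [Field K] {x1 x2 y1 y2 a b c d : K} (hd : a * d ≠ b * c)
    (h1 : x1 * (a * y1 + b * y2) = 0) (h2 : x2 * (c * y1 + d * y2) = 0) :
    x1 = 0 ∨ x2 = 0 ∨ (y1 = 0 ∧ y2 = 0) := by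
  by_cases hx1 : x1 = 0
  · exact Or.inl hx1
  by_cases hx2 : x2 = 0
  · exact Or.inr (Or.inl hx2)
  have e1 : a * y1 + b * y2 = 0 := by simpa [hx1] using h1
  have e2 : c * y1 + d * y2 = 0 := by simpa [hx2] using h2
  have hd' : a * d - b * c ≠ 0 := sub_ne_zero.2 hd
  right; right
  constructor
  · refine (mul_eq_zero.1 (?_ : (a * d - b * c) * y1 = 0)).resolve_left hd'
    linear_combination d * e1 - b * e2
  · refine (mul_eq_zero.1 (?_ : (a * d - b * c) * y2 = 0)).resolve_left hd'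
    linear_combination a * e2 - c * e1

/-- one half of the case distinction (the other half is the same with `x`, `y` exchanged) -/
theorem half {K : Type} [Field K] (A : Fin 4 → Fin 4 → K) (h01 : A 0 1 ≠ 0) (h10 : A 1 0 ≠ 0) (h02 : A 0 2 ≠ 0)
    (h12 : A 1 2 ≠ 0) (h03 : A 0 3 ≠ 0) (h13 : A 1 3 ≠ 0) (h23 : A 2 3 ≠ 0) (h30 : A 3 0 ≠ 0) (h31 : A 3 1 ≠ 0)
    (m1 : A 0 2 * A 1 3 ≠ A 0 3 * A 1 2) (m2 : A 0 1 * A 2 3 ≠ A 0 3 * A 2 1) (m3 : A 0 1 * A 3 2 ≠ A 0 2 * A 3 1)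
    (x0 x1 x2 x3 y0 y1 y2 y3 : K)
    (e0 : x0 * y0 = 0) (e1 : x1 * y1 = 0) (e2 : x2 * y2 = 0) (e3 : x3 * y3 = 0)
    (a0 : x0 * (A 0 0 * y0 + A 0 1 * y1 + A 0 2 * y2 + A 0 3 * y3) = 0)
    (a1 : x1 * (A 1 0 * y0 + A 1 1 * y1 + A 1 2 * y2 + A 1 3 * y3) = 0)
    (a2 : x2 * (A 2 0 * y0 + A 2 1 * y1 + A 2 2 * y2 + A 2 3 * y3) = 0)
    (a3 : x3 * (A 3 0 * y0 + A 3 1 * y1 + A 3 2 * y2 + A 3 3 * y3) = 0)
    (b0 : y0 * (A 0 0 * x0 + A 0 1 * x1 + A 0 2 * x2 + A 0 3 * x3) = 0)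
    (b1 : y1 * (A 1 0 * x0 + A 1 1 * x1 + A 1 2 * x2 + A 1 3 * x3) = 0)
    (b2 : y2 * (A 2 0 * x0 + A 2 1 * x1 + A 2 2 * x2 + A 2 3 * x3) = 0)
    (b3 : y3 * (A 3 0 * x0 + A 3 1 * x1 + A 3 2 * x2 + A 3 3 * x3) = 0) :
    (x1 = 0 → x2 = 0 → x3 = 0 → x0 = 0 ∨ (y0 = 0 ∧ y1 = 0 ∧ y2 = 0 ∧ y3 = 0)) ∧
    (x0 = 0 → x2 = 0 → x3 = 0 → x1 = 0 ∨ (y0 = 0 ∧ y1 = 0 ∧ y2 = 0 ∧ y3 = 0)) ∧
    (x0 = 0 → x1 = 0 → x3 = 0 → x2 = 0 ∨ (y0 = 0 ∧ y1 = 0 ∧ y2 = 0 ∧ y3 = 0)) ∧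
    (x0 = 0 → x1 = 0 → x2 = 0 → x3 = 0 ∨ (y0 = 0 ∧ y1 = 0 ∧ y2 = 0 ∧ y3 = 0)) ∧
    (x2 = 0 → x3 = 0 → y0 = 0 → y1 = 0 → x0 = 0 ∨ x1 = 0 ∨ (y2 = 0 ∧ y3 = 0)) ∧
    (x1 = 0 → x3 = 0 → y0 = 0 → y2 = 0 → x0 = 0 ∨ x2 = 0 ∨ (y1 = 0 ∧ y3 = 0)) ∧
    (x1 = 0 → x2 = 0 → y0 = 0 → y3 = 0 → x0 = 0 ∨ x3 = 0 ∨ (y1 = 0 ∧ y2 = 0)) := by
  refine ⟨?_, ?_, ?_, ?_, ?_, ?_, ?_⟩
  · rintro rfl rfl rfl
    by_cases hx : x0 = 0
    · exact Or.inl hx
    have e : y0 = 0 := (mul_eq_zero.1 e0).resolve_left hx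
    subst e
    rcases single (x := x0) (y1 := y1) (y2 := y3) (y3 := y2) (a1 := A 0 1) (a2 := A 0 3) h10 h30 h02
      (by linear_combination a0) (by linear_combination b1) (by linear_combination b3) with h | ⟨h, h', h''⟩
    · exact Or.inl h
    · exact Or.inr ⟨rfl, h, h'', h'⟩
  · rintro rfl rfl rfl
    by_cases hx : x1 = 0
    · exact Or.inl hx
    have e : y1 = 0 := (mul_eq_zero.1 e1).resolve_left hx
    subst e
    rcases single (x := x1) (y1 := y0) (y2 := y3) (y3 := y2) (a1 := A 1 0) (a2 := A 1 3) h01 h31 h12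
      (by linear_combination a1) (by linear_combination b0) (by linear_combination b3) with h | ⟨h, h', h''⟩
    · exact Or.inl h
    · exact Or.inr ⟨h, rfl, h'', h'⟩
  · rintro rfl rfl rfl
    by_cases hx : x2 = 0
    · exact Or.inl hx
    have e : y2 = 0 := (mul_eq_zero.1 e2).resolve_left hx
    subst e
    rcases single (x := x2) (y1 := y0) (y2 := y1) (y3 := y3) (a1 := A 2 0) (a2 := A 2 1) h02 h12 h23
      (by linear_combination a2) (by linear_combination b0) (by linear_combination b1) with h | ⟨h, h', h''⟩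
    · exact Or.inl h
    · exact Or.inr ⟨h, h', rfl, h''⟩
  · rintro rfl rfl rfl
    by_cases hx : x3 = 0
    · exact Or.inl hx
    have e : y3 = 0 := (mul_eq_zero.1 e3).resolve_left hx
    subst e
    right
    refine ⟨?_, ?_, ?_, rfl⟩
    · have : y0 * (A 0 3 * x3) = 0 := by linear_combination b0
      simpa [h03, hx] using this
    · have : y1 * (A 1 3 * x3) = 0 := by linear_combination b1
      simpa [h13, hx] using this
    · have : y2 * (A 2 3 * x3) = 0 := by linear_combination b2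
      simpa [h23, hx] using this
  · rintro rfl rfl rfl rfl
    exact double (x1 := x0) (x2 := x1) (y1 := y2) (y2 := y3) m1 (by linear_combination a0) (by linear_combination a1)
  · rintro rfl rfl rfl rfl
    exact double (x1 := x0) (x2 := x2) (y1 := y1) (y2 := y3) m2 (by linear_combination a0) (by linear_combination a2)
  · rintro rfl rfl rfl rfl
    exact double (x1 := x0) (x2 := x3) (y1 := y1) (y2 := y2) m3 (by linear_combination a0) (by linear_combination a3)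

theorem t_NPQ : Pool.Agent.V5helper57.WZ.S_NPQ := by
  intro K _ A h01 h10 h02 h12 h03 h13 h23 h30 h31 m1 m2 m3 x y he hx hy
  have a0 := hx 0
  have a1 := hx 1
  have a2 := hx 2
  have a3 := hx 3
  have b0 := hy 0
  have b1 := hy 1
  have b2 := hy 2
  have b3 := hy 3
  have e0 := he 0
  have e1 := he 1
  have e2 := he 2
  have e3 := he 3
  simp only [Fin.sum_univ_four] at a0 a1 a2 a3 b0 b1 b2 b3
  have P := half A h01 h10 h02 h12 h03 h13 h23 h30 h31 m1 m2 m3 _ _ _ _ _ _ _ _ e0 e1 e2 e3 a0 a1 a2 a3 b0 b1 b2 b3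
  have Q := half A h01 h10 h02 h12 h03 h13 h23 h30 h31 m1 m2 m3 _ _ _ _ _ _ _ _ (by rw [mul_comm]; exact e0)
    (by rw [mul_comm]; exact e1) (by rw [mul_comm]; exact e2) (by rw [mul_comm]; exact e3) b0 b1 b2 b3 a0 a1 a2 a3
  suffices H : (x 0 = 0 ∧ x 1 = 0 ∧ x 2 = 0 ∧ x 3 = 0) ∨ (y 0 = 0 ∧ y 1 = 0 ∧ y 2 = 0 ∧ y 3 = 0) by
    rcases H with ⟨c0, c1, c2, c3⟩ | ⟨c0, c1, c2, c3⟩
    · left; intro i; fin_cases i <;> assumption
    · right; intro i; fin_cases i <;> assumption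
  rw [mul_eq_zero] at e0 e1 e2 e3
  clear a0 a1 a2 a3 b0 b1 b2 b3 he hx hy h01 h10 h02 h12 h03 h13 h23 h30 h31 m1 m2 m3
  obtain ⟨p1, p2, p3, p4, p5, p6, p7⟩ := P
  obtain ⟨q1, q2, q3, q4, q5, q6, q7⟩ := Q
  generalize (x 0 = 0) = X0 at *
  generalize (x 1 = 0) = X1 at *
  generalize (x 2 = 0) = X2 at *
  generalize (x 3 = 0) = X3 at *
  generalize (y 0 = 0) = Y0 at *
  generalize (y 1 = 0) = Y1 at *
  generalize (y 2 = 0) = Y2 at *
  generalize (y 3 = 0) = Y3 at *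
  grind

end Pool.Agent.V5helper98.WZ
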