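import Pool.Agent.V5helper57.WZ.Stm

/-!
# Project WZ, job TRR
-/

set_option autoImplicit false

open Matrix

namespace Pool.Agent.V5helper98.WZ

theorem rel {K : Type} [Field K] (M Ti Tk : Matrix (Fin 2) (Fin 2) K) (u : K) (h : M * Ti - Ti * M = u • Ti) :
    (M * Ti * Tk).trace - (Ti * M * Tk).trace = u * (Ti * Tk).trace := by
  have := congrArg (fun X => (X * Tk).trace) h
  simpa [sub_mul, Matrix.trace_sub, Matrix.smul_mul, Matrix.trace_smul] using this

theorem t_TRR : Pool.Agent.V5helper57.WZ.S_TRR := by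
  intro K _ u A T _ h
  refine ⟨_, _, _, _, rfl, rfl, rfl, rfl, ?_⟩
  have h01 := rel _ _ (T 1) _ (h 0)
  have h02 := rel _ _ (T 2) _ (h 0)
  have h03 := rel _ _ (T 3) _ (h 0)
  have h10 := rel _ _ (T 0) _ (h 1)
  have h12 := rel _ _ (T 2) _ (h 1)
  have h13 := rel _ _ (T 3) _ (h 1)
  have h20 := rel _ _ (T 0) _ (h 2)
  have h21 := rel _ _ (T 1) _ (h 2)
  have h23 := rel _ _ (T 3) _ (h 2)
  have h30 := rel _ _ (T 0) _ (h 3)
  have h31 := rel _ _ (T 1) _ (h 3)
  have h32 := rel _ _ (T 2) _ (h 3)
  clear h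
  simp only [Fin.sum_univ_four, Matrix.trace_fin_two, Matrix.mul_apply, Fin.sum_univ_two, Matrix.add_apply,
    Matrix.smul_apply, smul_eq_mul] at *
  refine ⟨?_, ?_, ?_, ?_, ?_, ?_, ?_, ?_, ?_, ?_, ?_, ?_⟩
  · linear_combination h01
  · linear_combination h10
  · linear_combination h02
  · linear_combination h20
  · linear_combination h03
  · linear_combination h30
  · linear_combination h12
  · linear_combination h21
  · linear_combination h13
  · linear_combination h31
  · linear_combination h23
  · linear_combination h32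

end Pool.Agent.V5helper98.WZ
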